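import Pool.Agent.Y668.FV.Two

/-!
# MP_d0a72d_lc: the number of variables

`C f` (the interior of the set of the `W` for which `f` has no zero in `ℤ[1/p : p ∈ W]`) is a finite
union of basic open sets for every polynomial `f` over `ℤ` in `n` variables if and only if `n ≤ 1`.
An explicit polynomial in two variables for which it is not is given.

With `s = 11 x + 7` the polynomial is `((1 + 2 s²) y - 11)² - (1 + 2 s²)² (1 - 2 s² - 4 s⁴)`. Its
zeros in `R_W` are the rational points `(s, t)` of the elliptic curve `t² = 1 - 2 s² - 4 s⁴` with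
`(s - 7) / 11` and `11 / (1 + 2 s²)` in `R_W`. The group of rational points is generated by
`P0 = (1/2, 1/2)` and a point of order two. The condition at `11` allows only the multiples `N P0`
with `N` even and prime to three; a prime `P j` at which `2^(j+1) P0` reduces to infinity excludes
the `N` with `v_2(N) = j + 1`, and a prime modulo which `2^(k+1) P0` is a point of order three with
`1 + 2 s² = 0` excludes all `N` divisible by `2^(k+1)` and prime to three.
-/

namespace Pool.Agent.Results.MP_d0a72d_lc.TwoVariables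

open MvPolynomial hiding C
open Pool.Agent.Results.MP_d0a72d_lc.NotFiniteUnion

theorem result :
    (∀ n : ℕ, (∀ f : MvPolynomial (Fin n) ℤ,
      ∃ S : Finset (Finset Nat.Primes × Finset Nat.Primes), C f = ⋃ x ∈ S, U x.1 x.2) ↔ n ≤ 1) ∧
    ¬ ∃ S : Finset (Finset Nat.Primes × Finset Nat.Primes),
      C (((1 + 2 * (11 * X 0 + 7) ^ 2) * X 1 - 11) ^ 2 -
        (1 + 2 * (11 * X 0 + 7) ^ 2) ^ 2 *
          (1 - 2 * (11 * X 0 + 7) ^ 2 - 4 * (11 * X 0 + 7) ^ 4) : MvPolynomial (Fin 2) ℤ) =
        ⋃ x ∈ S, U x.1 x.2 := by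
  refine ⟨fun n => ⟨fun h => ?_, fun hn f => Pool.Agent.Y668.FV.one_var hn f⟩,
    Pool.Agent.Y668.FV.poly2_not⟩
  by_contra hcon
  obtain ⟨f, hf⟩ := Pool.Agent.Y668.FV.two_vars (n := n) (by omega)
  exact hf (h f)

end Pool.Agent.Results.MP_d0a72d_lc.TwoVariables
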